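import Pool.Agent.R877.RN.Stm2

/-! Project RN, piece ZEXT: the Ricci form of a one-step extension -/

namespace R877.RN
open Matrix

namespace ZEXT

variable {N : ℕ} (μ : Br N) (D : Mat N) (t : ℝ)

lemma e_sss (i j k : Fin N) : extc μ D t (some i) (some j) (some k) = μ i j k := rfl
lemma e_nss (i k : Fin N) : extc μ D t none (some i) (some k) = t * D k i := rfl
lemma e_sns (i k : Fin N) : extc μ D t (some i) none (some k) = -(t * D k i) := rfl
lemma e_nns (k : Fin N) : extc μ D t none none (some k) = 0 := rfl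
lemma e_n (a b : Option (Fin N)) : extc μ D t a b none = 0 := by
  cases a <;> cases b <;> rfl

lemma T1 (X : Option (Fin N) → ℝ) :
    ∑ i, ∑ k, (∑ p, X p * extc μ D t p i k) ^ 2 =
      ∑ k, (t * ∑ p, D k p * X (some p)) ^ 2 +
      ∑ i, ∑ k, (X none * t * D k i + adm μ (fun i => X (some i)) k i) ^ 2 := by
  simp only [Fintype.sum_option, e_sss, e_nss, e_sns, e_nns, e_n, mul_zero,
    Finset.sum_const_zero, add_zero, zero_add, ne_eq, OfNat.ofNat_ne_zero, not_false_eq_true,
    zero_pow]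
  congr 1
  · refine Finset.sum_congr rfl fun k _ => ?_
    have e : ∑ p, X (some p) * -(t * D k p) = -(t * ∑ p, D k p * X (some p)) := by
      rw [Finset.mul_sum, ← Finset.sum_neg_distrib]
      exact Finset.sum_congr rfl fun p _ => by ring
    rw [e, neg_sq]
  · refine Finset.sum_congr rfl fun i _ => Finset.sum_congr rfl fun k _ => ?_
    simp only [adm]
    congr 1
    ring

lemma T2 (X : Option (Fin N) → ℝ) :
    ∑ i, ∑ k, (∑ p, X p * extc μ D t p i k) * (∑ p, X p * extc μ D t p k i) =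
      ∑ i, ∑ k, (X none * t * D k i + adm μ (fun i => X (some i)) k i) *
        (X none * t * D i k + adm μ (fun i => X (some i)) i k) := by
  simp only [Fintype.sum_option, e_sss, e_nss, e_sns, e_nns, e_n, mul_zero, zero_mul,
    Finset.sum_const_zero, add_zero, zero_add]
  refine Finset.sum_congr rfl fun i _ => Finset.sum_congr rfl fun k _ => ?_
  simp only [adm]
  congr 1 <;> ring

lemma T3 (X : Option (Fin N) → ℝ) :
    ∑ i, ∑ j, (∑ k, X k * extc μ D t i j k) ^ 2 =
      ∑ i, ∑ j, (∑ k, X (some k) * μ i j k) ^ 2 +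
      2 * ∑ i, (t * ∑ k, X (some k) * D k i) ^ 2 := by
  simp only [Fintype.sum_option, e_sss, e_nss, e_sns, e_nns, e_n, mul_zero, zero_mul,
    Finset.sum_const_zero, add_zero, zero_add, ne_eq, OfNat.ofNat_ne_zero, not_false_eq_true,
    zero_pow]
  rw [Finset.sum_add_distrib]
  have e1 : ∀ i, ∑ k, X (some k) * (t * D k i) = t * ∑ k, X (some k) * D k i := by
    intro i
    rw [Finset.mul_sum]
    exact Finset.sum_congr rfl fun p _ => by ring
  have e2 : ∀ i, ∑ k, X (some k) * -(t * D k i) = -(t * ∑ k, X (some k) * D k i) := by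
    intro i
    rw [Finset.mul_sum, ← Finset.sum_neg_distrib]
    exact Finset.sum_congr rfl fun p _ => by ring
  simp only [e1, e2, neg_sq]
  ring

lemma T4 (X : Option (Fin N) → ℝ) :
    ∑ a, (∑ i, extc μ D t a i i) * ∑ p, ∑ q, X p * extc μ D t a p q * X q =
      t ^ 2 * D.trace * ∑ p, ∑ q, X (some p) * D q p * X (some q) +
      ∑ a, (∑ i, μ a i i) * (-(t * X none * ∑ q, D q a * X (some q)) +
        ∑ p, ∑ q, X (some p) * μ a p q * X (some q)) := by
  simp only [Fintype.sum_option, e_sss, e_nss, e_sns, e_nns, e_n, mul_zero, zero_mul,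
    Finset.sum_const_zero, add_zero, zero_add]
  congr 1
  · have e1 : ∑ i, t * D i i = t * D.trace := by
      rw [← Finset.mul_sum]; rfl
    have e2 : ∑ p, ∑ q, X (some p) * (t * D q p) * X (some q) =
        t * ∑ p, ∑ q, X (some p) * D q p * X (some q) := by
      rw [Finset.mul_sum]
      refine Finset.sum_congr rfl fun p _ => ?_
      rw [Finset.mul_sum]
      exact Finset.sum_congr rfl fun q _ => by ring
    rw [e1, e2]; ring
  · refine Finset.sum_congr rfl fun a _ => ?_
    congr 2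
    rw [Finset.mul_sum, ← Finset.sum_neg_distrib]
    exact Finset.sum_congr rfl fun q _ => by ring

lemma Q1 (x : Fin N → ℝ) : qf ((1/2 : ℝ) • com D - D.trace • sy D) x =
    1 / 2 * (∑ i, (∑ k, x k * D k i) ^ 2 - ∑ k, (∑ p, D k p * x p) ^ 2) -
      D.trace * ∑ p, ∑ q, x p * D q p * x q := by
  have h1 : qf ((1/2 : ℝ) • com D - D.trace • sy D) x =
      1 / 2 * (qf (D * Dᵀ) x - qf (Dᵀ * D) x) - D.trace * (1 / 2 * (qf D x + qf Dᵀ x)) := by
    simp only [qf, com, sy, Matrix.sub_mulVec, Matrix.smul_mulVec, Matrix.add_mulVec,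
      dotProduct_sub, dotProduct_add, dotProduct_smul, smul_eq_mul]
  have h2 : qf (D * Dᵀ) x = ∑ i, (∑ k, x k * D k i) ^ 2 := by
    simp only [qf]
    rw [← Matrix.mulVec_mulVec, Matrix.dotProduct_mulVec, Matrix.mulVec_transpose]
    simp only [dotProduct, vecMul]
    exact Finset.sum_congr rfl fun i _ => by ring
  have h3 : qf (Dᵀ * D) x = ∑ k, (∑ p, D k p * x p) ^ 2 := by
    simp only [qf]
    rw [← Matrix.mulVec_mulVec, Matrix.dotProduct_mulVec, Matrix.vecMul_transpose]
    simp only [dotProduct, mulVec]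
    exact Finset.sum_congr rfl fun i _ => by ring
  have h4 : qf Dᵀ x = ∑ p, ∑ q, x p * D q p * x q := by
    simp only [qf, dotProduct, mulVec, Matrix.transpose_apply, Finset.mul_sum]
    exact Finset.sum_congr rfl fun i _ => Finset.sum_congr rfl fun j _ => by ring
  have h5 : qf D x = ∑ p, ∑ q, x p * D q p * x q := by
    rw [Finset.sum_comm]
    simp only [qf, dotProduct, mulVec, Finset.mul_sum]
    exact Finset.sum_congr rfl fun i _ => Finset.sum_congr rfl fun j _ => by ring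
  rw [h1, h2, h3, h4, h5]
  ring

lemma Q2 (A : Mat N) : (sy D * sy A).trace =
    1 / 2 * (∑ i, ∑ k, D k i * A k i + ∑ i, ∑ k, D k i * A i k) := by
  have e : (sy D * sy A).trace = ∑ i, ∑ k, (1 / 4 * (D i k * A k i) + 1 / 4 * (D i k * A i k) +
      1 / 4 * (D k i * A k i) + 1 / 4 * (D k i * A i k)) := by
    simp only [Matrix.trace, Matrix.diag, Matrix.mul_apply, sy, Matrix.smul_apply,
      Matrix.add_apply, Matrix.transpose_apply, smul_eq_mul]
    exact Finset.sum_congr rfl fun i _ => Finset.sum_congr rfl fun j _ => by ring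
  rw [e]
  simp only [Finset.sum_add_distrib, ← Finset.mul_sum]
  have c1 : ∑ i, ∑ k, D i k * A k i = ∑ i, ∑ k, D k i * A i k := Finset.sum_comm
  have c2 : ∑ i, ∑ k, D i k * A i k = ∑ i, ∑ k, D k i * A k i := Finset.sum_comm
  rw [c1, c2]
  ring

lemma Q3 : ∑ i, ∑ j, (sy D i j) ^ 2 =
    1 / 2 * (∑ i, ∑ k, D k i * D k i + ∑ i, ∑ k, D k i * D i k) := by
  have e : ∑ i, ∑ j, (sy D i j) ^ 2 = (sy D * sy D).trace := by
    simp only [Matrix.trace, Matrix.diag, Matrix.mul_apply]
    refine Finset.sum_congr rfl fun i _ => Finset.sum_congr rfl fun j _ => ?_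
    have : sy D j i = sy D i j := by
      simp only [sy, Matrix.smul_apply, Matrix.add_apply, Matrix.transpose_apply, smul_eq_mul]
      ring
    rw [this]; ring
  rw [e, Q2]

end ZEXT

open ZEXT in
/-- ZEXT -/
theorem p_EXT : P_EXT := by
  intro N μ D t X _
  have hR : RF (extc μ D t) X = -(1/2) * ∑ i, ∑ k, (∑ p, X p * extc μ D t p i k)^2
    - (1/2) * ∑ i, ∑ k, (∑ p, X p * extc μ D t p i k) * (∑ p, X p * extc μ D t p k i)
    + (1/4) * ∑ i, ∑ j, (∑ k, X k * extc μ D t i j k)^2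
    - ∑ a, (∑ i, extc μ D t a i i) * ∑ p, ∑ q, X p * extc μ D t a p q * X q := rfl
  rw [hR, T1, T2, T3, T4, Q1, Q3]
  set x : Fin N → ℝ := fun i => X (some i) with hx
  set y : ℝ := X none with hy
  set A : Mat N := adm μ x with hA
  have hm : RF μ x = -(1/2) * ∑ i, ∑ k, A k i * A k i
    - (1/2) * ∑ i, ∑ k, A k i * A i k
    + (1/4) * ∑ i, ∑ j, (∑ k, x k * μ i j k)^2
    - ∑ a, (∑ i, μ a i i) * ∑ p, ∑ q, x p * μ a p q * x q := by
    simp only [RF, hA, adm, pow_two]
  have hell : ell μ D x = -(∑ i, ∑ k, D k i * A k i + ∑ i, ∑ k, D k i * A i k) +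
      ∑ k, ∑ a, x k * D k a * ∑ i, μ a i i := by
    simp only [ell]
    rw [Q2]; ring
  rw [hm, hell]
  have s1 : ∑ i, ∑ k, (y * t * D k i + A k i) ^ 2 =
      y ^ 2 * t ^ 2 * ∑ i, ∑ k, D k i * D k i + 2 * y * t * ∑ i, ∑ k, D k i * A k i +
        ∑ i, ∑ k, A k i * A k i := by
    simp only [Finset.mul_sum, ← Finset.sum_add_distrib]
    exact Finset.sum_congr rfl fun i _ => Finset.sum_congr rfl fun j _ => by ring
  have s2 : ∑ i, ∑ k, (y * t * D k i + A k i) * (y * t * D i k + A i k) =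
      y ^ 2 * t ^ 2 * ∑ i, ∑ k, D k i * D i k + 2 * y * t * ∑ i, ∑ k, D k i * A i k +
        ∑ i, ∑ k, A k i * A i k := by
    have c1 : ∑ i, ∑ k, D i k * A k i = ∑ i, ∑ k, D k i * A i k := Finset.sum_comm
    have c2 : 2 * y * t * ∑ i, ∑ k, D k i * A i k =
        y * t * ∑ i, ∑ k, D k i * A i k + y * t * ∑ i, ∑ k, D i k * A k i := by
      rw [c1]; ring
    rw [c2]
    simp only [Finset.mul_sum, ← Finset.sum_add_distrib]
    exact Finset.sum_congr rfl fun i _ => Finset.sum_congr rfl fun j _ => by ring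
  have s3 : ∑ k, (t * ∑ p, D k p * x p) ^ 2 = t ^ 2 * ∑ k, (∑ p, D k p * x p) ^ 2 := by
    rw [Finset.mul_sum]
    exact Finset.sum_congr rfl fun i _ => by ring
  have s4 : ∑ i, (t * ∑ k, x k * D k i) ^ 2 = t ^ 2 * ∑ i, (∑ k, x k * D k i) ^ 2 := by
    rw [Finset.mul_sum]
    exact Finset.sum_congr rfl fun i _ => by ring
  have s5 : ∑ a, (∑ i, μ a i i) * (-(t * y * ∑ q, D q a * x q) +
        ∑ p, ∑ q, x p * μ a p q * x q) =
      -(t * y * ∑ k, ∑ a, x k * D k a * ∑ i, μ a i i) +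
        ∑ a, (∑ i, μ a i i) * ∑ p, ∑ q, x p * μ a p q * x q := by
    have c : ∑ k, ∑ a, x k * D k a * ∑ i, μ a i i = ∑ a, (∑ q, D q a * x q) * ∑ i, μ a i i := by
      rw [Finset.sum_comm]
      refine Finset.sum_congr rfl fun a _ => ?_
      rw [Finset.sum_mul]
      exact Finset.sum_congr rfl fun q _ => by ring
    rw [c, Finset.mul_sum, ← Finset.sum_neg_distrib, ← Finset.sum_add_distrib]
    exact Finset.sum_congr rfl fun a _ => by ring
  rw [s1, s2, s3, s4, s5]
  ring

end R877.RN
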